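import Pool.Agent.Helper98.Hilb8.Retract

set_option autoImplicit false

open AlgebraicGeometry CategoryTheory MvPolynomial TensorProduct

universe u

namespace Pool.Agent.Helper98.Hilb8

/-- If all local algebras lift to algebras over reduced rings, the Hilbert scheme is reduced. -/
theorem isReduced_of_lift {k : Type u} [Field k] {n d : ℕ} (hL : LiftProp k n d)
    {H : Scheme.{u}} (str : H ⟶ Spec (CommRingCat.of k)) (hH : IsHilbertScheme k n d str) :
    AlgebraicGeometry.IsReduced H := by
  have hst : ∀ x : H, _root_.IsReduced (H.presheaf.stalk x) := by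
    intro x
    let O : Type u := H.presheaf.stalk x
    let α : CommRingCat.of k ⟶ CommRingCat.of O := Spec.preimage (H.fromSpecStalk x ≫ str)
    let _ : Algebra k O := α.hom.toAlgebra
    let f0 : {f : Spec (CommRingCat.of O) ⟶ H //
        f ≫ str = Spec.map (CommRingCat.ofHom (algebraMap k O))} :=
      ⟨H.fromSpecStalk x, by
        rw [← Spec.map_preimage (H.fromSpecStalk x ≫ str)]
        rfl⟩
    have hI := (hH.pt O f0).2
    obtain ⟨Q, _, _, _, _, ψ, hψ, J, hJ1, hJ2⟩ := core hL O (hH.pt O f0).1 hI
    let F := (hH.pt Q).symm ⟨J, hJ1⟩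
    let f1 : {f : Spec (CommRingCat.of O) ⟶ H //
        f ≫ str = Spec.map (CommRingCat.ofHom (algebraMap k O))} :=
      ⟨Spec.map (CommRingCat.ofHom ψ.toRingHom) ≫ F.1, by
        rw [Category.assoc, F.2, ← Spec.map_comp, ← CommRingCat.ofHom_comp]
        congr 2
        exact ψ.comp_algebraMap⟩
    have hf1 : f1 = f0 := by
      apply (hH.pt O).injective
      apply Subtype.ext
      rw [hH.nat Q O ψ F f1 rfl, ← hJ2]
      simp [F]
    have hf : Spec.map (CommRingCat.ofHom ψ.toRingHom) ≫ F.1 = H.fromSpecStalk x :=
      congrArg Subtype.val hf1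
    have hx : F.1 (IsLocalRing.closedPoint Q) = x := by
      have h1 : (Spec.map (CommRingCat.ofHom ψ.toRingHom)) (IsLocalRing.closedPoint O)
          = IsLocalRing.closedPoint Q := by
        exact Spec_closedPoint
      rw [← h1, ← Scheme.Hom.comp_apply, hf]
      exact Scheme.fromSpecStalk_closedPoint
    have hsp : F.1 (IsLocalRing.closedPoint Q) ⤳ x := by rw [hx]
    let ι := Scheme.stalkClosedPointTo F.1
    have hcomp : H.presheaf.stalkSpecializes hsp ≫ ι ≫ CommRingCat.ofHom ψ.toRingHom =
        𝟙 (H.presheaf.stalk x) := by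
      apply Spec.map_injective
      rw [← cancel_mono (H.fromSpecStalk x), Spec.map_comp, Spec.map_comp, Category.assoc,
        Category.assoc, Scheme.SpecMap_stalkSpecializes_fromSpecStalk]
      rw [Scheme.Spec_stalkClosedPointTo_fromSpecStalk F.1, hf, Spec.map_id]
      exact (Category.id_comp _).symm
    refine isReduced_of_injective (H.presheaf.stalkSpecializes hsp ≫ ι).hom ?_
    intro a b hab
    have h1 := congrArg (CommRingCat.ofHom ψ.toRingHom).hom hab
    have h2 : ∀ a, (CommRingCat.ofHom ψ.toRingHom).hom
        ((H.presheaf.stalkSpecializes hsp ≫ ι).hom a) = a := by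
      intro a
      have := congrArg (fun g => g.hom a) hcomp
      simpa using this
    rw [h2, h2] at h1
    exact h1
  exact isReduced_of_isReduced_stalk _

end Pool.Agent.Helper98.Hilb8
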