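import Pool.Agent.Helper98.Hilb8.Defs

set_option autoImplicit false

open AlgebraicGeometry CategoryTheory MvPolynomial TensorProduct

universe u

namespace Pool.Agent.Helper98.Hilb8

lemma exists_monomial_basis {n d : ℕ} (O : Type u) [CommRing O] [IsLocalRing O]
    (I : Ideal (MvPolynomial (Fin n) O)) (hI : I ∈ HilbPts n d O) :
    ∃ (m : Fin d → (Fin n →₀ ℕ)) (bB : Module.Basis (Fin d) O (MvPolynomial (Fin n) O ⧸ I)),
      ∀ j, bB j = Ideal.Quotient.mk I (monomial (m j) 1) := by
  classical
  obtain ⟨h1, h2, h3⟩ := hI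
  have hfree : Module.Free O (MvPolynomial (Fin n) O ⧸ I) := Module.free_of_flat_of_isLocalRing
  have hfp : Module.FinitePresentation O (MvPolynomial (Fin n) O ⧸ I) :=
    Module.finitePresentation_of_projective O _
  have hrank : Module.finrank O (MvPolynomial (Fin n) O ⧸ I) = d := by
    have := h3 ⟨IsLocalRing.maximalIdeal O, inferInstance⟩
    rw [Module.finrank_baseChange] at this
    exact this
  let v : ULift.{u} (Fin n →₀ ℕ) → (MvPolynomial (Fin n) O ⧸ I) :=
    fun m => Ideal.Quotient.mk I (monomial m.down 1)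
  have hv : Submodule.span O (Set.range v) = ⊤ := by
    rw [eq_top_iff]
    rintro y -
    obtain ⟨p, rfl⟩ := Ideal.Quotient.mk_surjective y
    induction p using MvPolynomial.induction_on' with
    | monomial u a =>
      have : (Ideal.Quotient.mk I (monomial u a)) = a • v ⟨u⟩ := by
        simp only [v]
        rw [← Ideal.Quotient.mkₐ_eq_mk O, ← map_smul]
        simp [smul_monomial]
      rw [this]
      exact Submodule.smul_mem _ _ (Submodule.subset_span ⟨⟨u⟩, rfl⟩)
    | add p q hp hq =>
      rw [map_add]
      exact Submodule.add_mem _ hp hq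
  obtain ⟨κ, a, b, hb⟩ := Module.exists_basis_of_span_of_flat v hv
  have hfin : Finite κ := Module.Finite.finite_basis b
  have := Fintype.ofFinite κ
  have hcard : Fintype.card κ = d := by
    rw [← hrank, Module.finrank_eq_card_basis b]
  let e : κ ≃ Fin d := Fintype.equivFinOfCardEq hcard
  refine ⟨fun j => (a (e.symm j)).down, b.reindex e, fun j => ?_⟩
  rw [Module.Basis.reindex_apply, hb]

/-- transfer of the universal family along a local homomorphism -/
lemma transfer {n d : ℕ} {O : Type u} [CommRing O]
    (I : Ideal (MvPolynomial (Fin n) O))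
    (m : Fin d → (Fin n →₀ ℕ)) (bB : Module.Basis (Fin d) O (MvPolynomial (Fin n) O ⧸ I))
    (hbB : ∀ j, bB j = Ideal.Quotient.mk I (monomial (m j) 1))
    {Q : Type u} [CommRing Q] (ψ : Q →+* O) [IsLocalHom ψ]
    {AQ : Type u} [CommRing AQ] [Algebra Q AQ] (bQ : Module.Basis (Fin d) Q AQ)
    (c : Module.Basis (Fin d) O (MvPolynomial (Fin n) O ⧸ I))
    (fQ : AQ →+* (MvPolynomial (Fin n) O ⧸ I))
    (hf1 : ∀ r, fQ (algebraMap Q AQ r) = algebraMap O _ (ψ r))
    (hf2 : ∀ i, fQ (bQ i) = c i)
    (X' : Fin n → AQ) (hX : ∀ i, fQ (X' i) = Ideal.Quotient.mk I (X i)) :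
    ∃ J : Ideal (MvPolynomial (Fin n) Q), J ∈ HilbPts n d Q ∧
      J.map (MvPolynomial.map ψ) = I := by
  classical
  let g : MvPolynomial (Fin n) Q →ₐ[Q] AQ := aeval X'
  have hgf : ∀ p : MvPolynomial (Fin n) Q, fQ (g p) = Ideal.Quotient.mk I (MvPolynomial.map ψ p) := by
    intro p
    have : fQ.comp g.toRingHom = (Ideal.Quotient.mk I).comp (MvPolynomial.map ψ) := by
      apply MvPolynomial.ringHom_ext
      · intro r
        simp only [g, RingHom.comp_apply, AlgHom.toRingHom_eq_coe, RingHom.coe_coe, map_C]
        rw [← MvPolynomial.algebraMap_eq, AlgHom.commutes, hf1]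
        rfl
      · intro i
        simp [g, hX]
    exact congrArg (fun F => F p) this
  -- coordinates
  have hrepr : ∀ a : AQ, ∀ j, c.repr (fQ a) j = ψ (bQ.repr a j) := by
    intro a j
    have h : fQ a = ∑ i, ψ (bQ.repr a i) • c i := by
      conv_lhs => rw [← bQ.sum_repr a, map_sum]
      refine Finset.sum_congr rfl fun i _ => ?_
      rw [Algebra.smul_def, map_mul, hf1, hf2]
      exact (Algebra.smul_def _ _).symm
    rw [h, map_sum, Finset.sum_apply']
    simp [Finsupp.single_apply]
  let v : Fin d → AQ := fun j => g (monomial (m j) 1)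
  have hvB : ∀ j, fQ (v j) = bB j := by
    intro j
    rw [hbB, hgf]
    simp
  have hunit : IsUnit (bQ.det v) := by
    apply isUnit_of_map_unit ψ
    have h1 : ψ (bQ.det v) = c.det bB := by
      rw [Module.Basis.det_apply, Module.Basis.det_apply, RingHom.map_det]
      congr 1
      ext i j
      rw [RingHom.mapMatrix_apply, Matrix.map_apply, Module.Basis.toMatrix_apply,
        Module.Basis.toMatrix_apply, ← hvB, hrepr]
    rw [h1]
    exact c.isUnit_det bB
  obtain ⟨hli, hsp⟩ := (bQ.is_basis_iff_det).2 hunit
  have hgsurj : Function.Surjective g := by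
    intro a
    have : a ∈ Submodule.span Q (Set.range v) := by rw [hsp]; trivial
    have hle : Submodule.span Q (Set.range v) ≤ LinearMap.range g.toLinearMap := by
      rw [Submodule.span_le]
      rintro _ ⟨j, rfl⟩
      exact ⟨_, rfl⟩
    exact hle this
  let J : Ideal (MvPolynomial (Fin n) Q) := RingHom.ker g
  let e : (MvPolynomial (Fin n) Q ⧸ J) ≃ₐ[Q] AQ :=
    Ideal.quotientKerAlgEquivOfSurjective hgsurj
  let bJ : Module.Basis (Fin d) Q (MvPolynomial (Fin n) Q ⧸ J) := bQ.map e.symm.toLinearEquiv
  have hJfree : Module.Free Q (MvPolynomial (Fin n) Q ⧸ J) := Module.Free.of_basis bJ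
  have hJfin : Module.Finite Q (MvPolynomial (Fin n) Q ⧸ J) := Module.Finite.of_basis bJ
  refine ⟨J, ⟨hJfin, inferInstance, ?_⟩, ?_⟩
  · intro p
    rw [Module.finrank_eq_card_basis (bJ.baseChange p.asIdeal.ResidueField)]
    simp
  · set J' := J.map (MvPolynomial.map ψ) with hJ'
    have hJI : J' ≤ I := by
      rw [hJ', Ideal.map_le_iff_le_comap]
      intro p hp
      have : g p = 0 := hp
      rw [Ideal.mem_comap, ← Ideal.Quotient.eq_zero_iff_mem, ← hgf, this, map_zero]
    apply le_antisymm hJI
    -- every polynomial is congruent to a combination of the monomials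
    have key : ∀ p : MvPolynomial (Fin n) O, ∃ a : Fin d → O,
        p - ∑ j, a j • (monomial (m j) (1 : O)) ∈ J' := by
      intro p
      induction p using MvPolynomial.induction_on' with
      | monomial u r =>
        have : g (monomial u 1) ∈ Submodule.span Q (Set.range v) := by rw [hsp]; trivial
        obtain ⟨q, hq⟩ := (Submodule.mem_span_range_iff_exists_fun Q).1 this
        have hmem : (monomial u (1 : Q)) - ∑ j, q j • (monomial (m j) (1 : Q)) ∈ J := by
          change g _ = 0
          rw [map_sub, map_sum, ← hq, sub_eq_zero]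
          refine Finset.sum_congr rfl fun j _ => ?_
          rw [map_smul]
        have h2 := Ideal.mem_map_of_mem (MvPolynomial.map ψ) hmem
        rw [map_sub, map_sum] at h2
        refine ⟨fun j => r * ψ (q j), ?_⟩
        have h3 := J'.mul_mem_left (C r) h2
        convert h3 using 1
        rw [mul_sub, Finset.mul_sum]
        congr 1
        · simp [C_mul_monomial]
        · refine Finset.sum_congr rfl fun j _ => ?_
          simp [C_mul_monomial, smul_monomial]
      | add p q hp hq =>
        obtain ⟨a, ha⟩ := hp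
        obtain ⟨b, hb⟩ := hq
        refine ⟨a + b, ?_⟩
        have := J'.add_mem ha hb
        convert this using 1
        simp only [Pi.add_apply, add_smul, Finset.sum_add_distrib]
        ring
    intro p hp
    obtain ⟨a, ha⟩ := key p
    have h1 : Ideal.Quotient.mk I (∑ j, a j • (monomial (m j) (1 : O))) = 0 := by
      have h2 := Ideal.Quotient.eq_zero_iff_mem.2 (hJI ha)
      rw [map_sub, Ideal.Quotient.eq_zero_iff_mem.2 hp, zero_sub, neg_eq_zero] at h2
      exact h2
    have h3 : ∑ j, a j • bB j = 0 := by
      rw [← h1, map_sum]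
      refine Finset.sum_congr rfl fun j _ => ?_
      rw [hbB, ← Ideal.Quotient.mkₐ_eq_mk O]
      exact (map_smul _ _ _).symm
    have h4 : ∀ j, a j = 0 := fun j => by
      have := Fintype.linearIndependent_iff.1 bB.linearIndependent a h3 j
      exact this
    simpa [h4] using ha

end Pool.Agent.Helper98.Hilb8
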