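import Mathlib

set_option autoImplicit false

open AlgebraicGeometry CategoryTheory MvPolynomial TensorProduct

universe u

namespace Pool.Agent.Helper98.Hilb8

/-- The set `Hilb^d(𝔸^n)(A)`: ideals `I` of `A[x_1,…,x_n]` such that `A[x]/I` is finite, flat
and of rank `d` (at every prime of `A`) over `A`; equivalently closed subschemes of `𝔸^n × Spec A`
which are finite and flat of degree `d` over `Spec A`. -/
def HilbPts (n d : ℕ) (A : Type u) [CommRing A] : Set (Ideal (MvPolynomial (Fin n) A)) :=
  {I | Module.Finite A (MvPolynomial (Fin n) A ⧸ I) ∧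
    Module.Flat A (MvPolynomial (Fin n) A ⧸ I) ∧
    ∀ p : PrimeSpectrum A, Module.finrank p.asIdeal.ResidueField
      (p.asIdeal.ResidueField ⊗[A] (MvPolynomial (Fin n) A ⧸ I)) = d}

/-- `H`, with its structure morphism to `Spec k`, is the Hilbert scheme of `d` points in `𝔸^n` over
`k`: it represents the Hilbert functor. `pt A` is the bijection between the `A`-valued points
of `H` over `k` and `HilbPts n d A`, natural in the `k`-algebra `A`. -/
structure IsHilbertScheme (k : Type u) [Field k] (n d : ℕ) {H : Scheme.{u}}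
    (str : H ⟶ Spec (CommRingCat.of k)) where
  pt : ∀ (A : Type u) [CommRing A] [Algebra k A],
    {f : Spec (CommRingCat.of A) ⟶ H //
      f ≫ str = Spec.map (CommRingCat.ofHom (algebraMap k A))} ≃ HilbPts n d A
  nat : ∀ (A : Type u) [CommRing A] [Algebra k A] (A' : Type u) [CommRing A'] [Algebra k A']
    (φ : A →ₐ[k] A')
    (f : {f : Spec (CommRingCat.of A) ⟶ H //
      f ≫ str = Spec.map (CommRingCat.ofHom (algebraMap k A))})
    (f' : {f : Spec (CommRingCat.of A') ⟶ H //
      f ≫ str = Spec.map (CommRingCat.ofHom (algebraMap k A'))}),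
    f'.1 = Spec.map (CommRingCat.ofHom φ.toRingHom) ≫ f.1 →
    (pt A' f' : Ideal (MvPolynomial (Fin n) A')) =
      Ideal.map (MvPolynomial.map φ.toRingHom) (pt A f : Ideal (MvPolynomial (Fin n) A))

/-- Every free algebra of rank `d` over a local `k`-algebra `S` which is generated by `n`
elements is a base change of an algebra over a reduced `k`-algebra `R`. -/
def LiftProp (k : Type u) [Field k] (n d : ℕ) : Prop :=
  ∀ (S : Type u) [CommRing S] [IsLocalRing S] [Algebra k S]
    (B : Type u) [CommRing B] [Algebra S B] (c : Module.Basis (Fin d) S B) (x : Fin n → B),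
    Algebra.adjoin S (Set.range x) = ⊤ →
    ∃ (R : Type u) (_ : CommRing R) (_ : IsReduced R) (_ : Algebra k R)
      (A : Type u) (_ : CommRing A) (_ : Algebra R A) (b : Module.Basis (Fin d) R A)
      (φ : R →ₐ[k] S) (c' : Module.Basis (Fin d) S B) (f : A →+* B),
      (∀ r, f (algebraMap R A r) = algebraMap S B (φ r)) ∧ (∀ i, f (b i) = c' i)

end Pool.Agent.Helper98.Hilb8
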