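import Pool.Agent.Helper98.Hilb8.Core

set_option autoImplicit false

open AlgebraicGeometry CategoryTheory MvPolynomial TensorProduct

universe u

namespace Pool.Agent.Helper98.Hilb8

lemma exists_tensor {R A Q B : Type u} [CommRing R] [CommRing A] [CommRing Q] [CommRing B]
    [Algebra R A] [Algebra R Q] (α : Q →+* B) (f : A →+* B)
    (h : ∀ r, f (algebraMap R A r) = α (algebraMap R Q r)) :
    ∃ fQ : Q ⊗[R] A →+* B, (∀ q, fQ (algebraMap Q _ q) = α q) ∧ (∀ a, fQ (1 ⊗ₜ[R] a) = f a) := by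
  let _ : Algebra R B := (α.comp (algebraMap R Q)).toAlgebra
  let f1 : Q →ₐ[R] B := { α with commutes' := fun r => rfl }
  let g1 : A →ₐ[R] B := { f with commutes' := fun r => h r }
  refine ⟨(Algebra.TensorProduct.productMap f1 g1).toRingHom, fun q => ?_, fun a => ?_⟩
  · change Algebra.TensorProduct.productMap f1 g1 (q ⊗ₜ 1) = _
    rw [Algebra.TensorProduct.productMap_apply_tmul, map_one, mul_one]
    rfl
  · change Algebra.TensorProduct.productMap f1 g1 (1 ⊗ₜ a) = _
    rw [Algebra.TensorProduct.productMap_apply_tmul, map_one, one_mul]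
    rfl

lemma transfer_tensor {n d : ℕ} {O : Type u} [CommRing O]
    (I : Ideal (MvPolynomial (Fin n) O))
    (m : Fin d → (Fin n →₀ ℕ)) (bB : Module.Basis (Fin d) O (MvPolynomial (Fin n) O ⧸ I))
    (hbB : ∀ j, bB j = Ideal.Quotient.mk I (monomial (m j) 1))
    {R A Q : Type u} [CommRing R] [CommRing A] [CommRing Q] [Algebra R A] [Algebra R Q]
    (ψ : Q →+* O) [IsLocalHom ψ] (b : Module.Basis (Fin d) R A)
    (c : Module.Basis (Fin d) O (MvPolynomial (Fin n) O ⧸ I))
    (f : A →+* (MvPolynomial (Fin n) O ⧸ I)) (φ : R →+* O)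
    (hψR : ∀ r, ψ (algebraMap R Q r) = φ r)
    (hf1 : ∀ r, f (algebraMap R A r) = algebraMap O _ (φ r)) (hf2 : ∀ i, f (b i) = c i)
    (y : Fin n → Fin d → Q)
    (hy : ∀ i l, ψ (y i l) = c.repr (Ideal.Quotient.mk I (X i)) l) :
    ∃ J : Ideal (MvPolynomial (Fin n) Q), J ∈ HilbPts n d Q ∧
      J.map (MvPolynomial.map ψ) = I := by
  obtain ⟨fQ, hfQ1, hfQ2⟩ := exists_tensor (R := R) (A := A) (Q := Q)
    (B := MvPolynomial (Fin n) O ⧸ I) ((algebraMap O _).comp ψ) f (by
      intro r
      rw [hf1, RingHom.comp_apply, hψR])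
  let bQ : Module.Basis (Fin d) Q (Q ⊗[R] A) := b.baseChange Q
  have hbQ : ∀ i, fQ (bQ i) = c i := by
    intro i
    rw [show bQ i = 1 ⊗ₜ b i from Module.Basis.baseChange_apply Q b i, hfQ2, hf2]
  let X' : Fin n → Q ⊗[R] A := fun i => ∑ l, y i l • bQ l
  have hsm : ∀ (q : Q) (a : Q ⊗[R] A), q • a = algebraMap Q _ q * a :=
    fun q a => Algebra.smul_def q a
  have hX' : ∀ i, fQ (X' i) = Ideal.Quotient.mk I (X i) := by
    intro i
    simp only [X', map_sum]
    have : Ideal.Quotient.mk I (X i) = ∑ l, c.repr (Ideal.Quotient.mk I (X i)) l • c l :=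
      (c.sum_repr _).symm
    rw [this]
    refine Finset.sum_congr rfl fun l _ => ?_
    rw [hsm, map_mul, hfQ1, hbQ, RingHom.comp_apply, hy]
    exact (Algebra.smul_def _ _).symm
  exact transfer I m bB hbB ψ bQ c fQ (fun r => by rw [hfQ1]; rfl) hbQ X' hX'

/-- a local ring `O` with a point of the Hilbert functor receives a local homomorphism from a
reduced local ring `Q` with a point of the Hilbert functor inducing the given one -/
theorem core {k : Type u} [Field k] {n d : ℕ} (hL : LiftProp k n d)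
    (O : Type u) [CommRing O] [IsLocalRing O] [Algebra k O]
    (I : Ideal (MvPolynomial (Fin n) O)) (hI : I ∈ HilbPts n d O) :
    ∃ (Q : Type u) (_ : CommRing Q) (_ : IsLocalRing Q) (_ : IsReduced Q) (_ : Algebra k Q)
      (ψ : Q →ₐ[k] O) (_ : IsLocalHom ψ.toRingHom) (J : Ideal (MvPolynomial (Fin n) Q)),
      J ∈ HilbPts n d Q ∧ J.map (MvPolynomial.map ψ.toRingHom) = I := by
  classical
  obtain ⟨m, bB, hbB⟩ := exists_monomial_basis O I hI
  let x : Fin n → (MvPolynomial (Fin n) O ⧸ I) := fun i => Ideal.Quotient.mk I (X i)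
  have hadj : Algebra.adjoin O (Set.range x) = ⊤ := by
    rw [eq_top_iff]
    rintro y -
    obtain ⟨p, rfl⟩ := Ideal.Quotient.mk_surjective y
    have : Ideal.Quotient.mk I p = aeval x p := by
      have h : (Ideal.Quotient.mkₐ O I) = aeval x := by
        apply MvPolynomial.algHom_ext
        intro i
        simp [x]
      rw [← Ideal.Quotient.mkₐ_eq_mk O, h]
    rw [this, Algebra.adjoin_range_eq_range_aeval]
    exact ⟨p, rfl⟩
  obtain ⟨R, _, _, _, A, _, _, b, φ, c, f, hf1, hf2⟩ := hL O _ bB x hadj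
  let P := MvPolynomial (Fin n × Fin d) R
  let ψ0 : P →+* O := eval₂Hom (φ : R →+* O) (fun q => c.repr (x q.1) q.2)
  let 𝔭 : Ideal P := (IsLocalRing.maximalIdeal O).comap ψ0
  have h𝔭 : 𝔭.IsPrime := Ideal.comap_isPrime _ _
  let Q := Localization.AtPrime 𝔭
  have hu : ∀ y : 𝔭.primeCompl, IsUnit (ψ0 y) := by
    rintro ⟨y, hy⟩
    by_contra h
    exact hy ((IsLocalRing.mem_maximalIdeal _).2 h)
  let ψ : Q →+* O := IsLocalization.lift (M := 𝔭.primeCompl) hu
  have hψ : ∀ y : P, ψ (algebraMap P Q y) = ψ0 y := fun y => IsLocalization.lift_eq _ y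
  have hψR : ∀ r : R, ψ (algebraMap R Q r) = φ r := by
    intro r
    rw [IsScalarTower.algebraMap_apply R P Q, hψ]
    change eval₂Hom (φ : R →+* O) _ (algebraMap R P r) = _
    rw [MvPolynomial.algebraMap_eq, eval₂Hom_C]
    rfl
  have hloc : IsLocalHom ψ := by
    constructor
    intro q hq
    obtain ⟨y, s, rfl⟩ := IsLocalization.exists_mk'_eq 𝔭.primeCompl q
    have hy : y ∉ 𝔭 := by
      intro hy
      have h1 : ψ0 y = ψ (IsLocalization.mk' Q y s) * ψ0 s := by
        rw [← hψ, ← hψ, ← map_mul, IsLocalization.mk'_spec]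
      have h2 : IsUnit (ψ0 y) := by
        rw [h1]
        exact hq.mul (hu s)
      exact (IsLocalRing.mem_maximalIdeal _).1 hy h2
    exact (IsLocalization.AtPrime.isUnit_mk'_iff Q 𝔭 y s).2 hy
  have hred : IsReduced Q := by
    have : IsReduced P := inferInstance
    exact isReduced_localizationPreserves 𝔭.primeCompl _ this
  let algkQ : Algebra k Q := ((algebraMap R Q).comp (algebraMap k R)).toAlgebra
  let ψk : Q →ₐ[k] O :=
    { ψ with
      commutes' := fun r => by
        change ψ (algebraMap R Q (algebraMap k R r)) = _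
        rw [hψR, AlgHom.commutes] }
  have hψk : ψk.toRingHom = ψ := rfl
  obtain ⟨J, hJ1, hJ2⟩ := transfer_tensor I m bB hbB ψ b c f φ.toRingHom hψR hf1 hf2
    (fun i l => algebraMap P Q (X (i, l))) (fun i l => by
      rw [hψ]
      change eval₂Hom (φ : R →+* O) _ (X (i, l)) = _
      rw [MvPolynomial.eval₂Hom_X'])
  exact ⟨Q, inferInstance, inferInstance, hred, algkQ, ψk, hloc, J, hJ1, hJ2⟩

end Pool.Agent.Helper98.Hilb8
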